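import Mathlib

/-!
# Locality vector spaces and locality tensor products

Definitions for MP_16c542_al.
-/

set_option autoImplicit false

universe u v

open TensorProduct

namespace Pool.Agent.X326.Loc

/-- The polar set of `S` for the relation `T`. -/
def polar {X : Type u} (T : X → X → Prop) (S : Set X) : Set X := {x | ∀ y ∈ S, T x y}

/-- `(E, T)` is a locality vector space: the relation `T` is symmetric and the polar set of every
subset of `E` is a linear subspace. -/
def IsLocality (K : Type u) {E : Type u} [Field K] [AddCommGroup E] [Module K E]
    (T : E → E → Prop) : Prop :=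
  (∀ x y, T x y → T y x) ∧ ∀ S : Set E, ∃ U : Submodule K E, (U : Set E) = polar T S

/-- A vector space `E` over `K` with a relation `T` and two linear subspaces `V` and `W`. -/
structure Datum (K : Type u) [Field K] where
  /-- the vector space -/
  E : Type u
  [grp : AddCommGroup E]
  [mod : Module K E]
  /-- the relation -/
  T : E → E → Prop
  /-- the first subspace -/
  V : Submodule K E
  /-- the second subspace -/
  W : Submodule K E

attribute [instance] Datum.grp Datum.mod

section

variable {K : Type u} [Field K] (D : Datum K)

/-- The tensor product of the subspaces `V` and `W`. -/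
def VW : Type u := D.V ⊗[K] D.W

noncomputable instance instVW₁ : AddCommGroup (VW D) :=
  (inferInstance : AddCommGroup (D.V ⊗[K] D.W))

noncomputable instance instVW₂ : Module K (VW D) :=
  (inferInstance : Module K (D.V ⊗[K] D.W))

/-- The tensor `v ⊗ w`. -/
noncomputable def tens (v : D.V) (w : D.W) : VW D := v ⊗ₜ[K] w

/-- The locality tensor product of the subspaces `V` and `W`, as a subspace of `V ⊗ W`: the linear
combinations of the tensors `v ⊗ w` with `v ∈ V`, `w ∈ W` independent. -/
noncomputable def LSpan : Submodule K (VW D) :=
  Submodule.span K {t | ∃ (v : D.V) (w : D.W), D.T v w ∧ t = tens D v w}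

/-- The locality tensor product as a type. -/
def LTensor : Type u := LSpan D

noncomputable instance instLT₁ : AddCommGroup (LTensor D) :=
  (inferInstance : AddCommGroup (LSpan D))

noncomputable instance instLT₂ : Module K (LTensor D) :=
  (inferInstance : Module K (LSpan D))

/-- The element of `V ⊗ W` given by an element of the locality tensor product. -/
def incl (X : LTensor D) : VW D := Subtype.val (p := (· ∈ LSpan D)) X

/-- `X = ∑ i, v i ⊗ w i` with every pair `v i`, `w i` independent. -/
def IsRep (X : VW D) (m : ℕ) (v : Fin m → D.V) (w : Fin m → D.W) : Prop :=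
  X = ∑ i, tens D (v i) (w i) ∧ ∀ i, D.T (v i) (w i)

/-- The two vectors `v`, `w` are independent of the two vectors `v'`, `w'`. -/
def Cross (v : D.V) (w : D.W) (v' : D.V) (w' : D.W) : Prop :=
  D.T v v' ∧ D.T v w' ∧ D.T w v' ∧ D.T w w'

/-- The quotient locality relation: `X = ∑ i, v i ⊗ w i` and `Y = ∑ j, v' j ⊗ w' j` for some
vectors such that for all `i`, `j` the four vectors `v i`, `w i`, `v' j`, `w' j` are pairwise
independent (that all the pairs `v i`, `w i` and `v' j`, `w' j` are independent is part of
`IsRep`). -/
def QRel (X Y : VW D) : Prop :=
  ∃ (m n : ℕ) (v : Fin m → D.V) (w : Fin m → D.W) (v' : Fin n → D.V) (w' : Fin n → D.W),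
    IsRep D X m v w ∧ IsRep D Y n v' w' ∧ ∀ i j, Cross D (v i) (w i) (v' j) (w' j)

/-- The quotient locality relation on the locality tensor product. -/
def LRel (X Y : LTensor D) : Prop := QRel D (incl D X) (incl D Y)

end

end Pool.Agent.X326.Loc
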