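import Pool.Agent.X326.Loc.Defs

/-!
# The example
-/

set_option autoImplicit false

universe u

open TensorProduct

namespace Pool.Agent.X326.Loc

section

variable {K E : Type u} [Field K] [AddCommGroup E] [Module K E] (T : E → E → Prop)
  (V W : Submodule K E)

/-- The locality tensor product of the subspaces `V` and `W`, unbundled. -/
def LTensorT : Submodule K (V ⊗[K] W) :=
  Submodule.span K {t | ∃ (v : V) (w : W), T v w ∧ t = v ⊗ₜ[K] w}

/-- The quotient locality relation, unbundled. -/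
def QRelT (X Y : V ⊗[K] W) : Prop :=
  ∃ (m n : ℕ) (v : Fin m → V) (w : Fin m → W) (v' : Fin n → V) (w' : Fin n → W),
    X = ∑ i, v i ⊗ₜ[K] w i ∧ Y = ∑ j, v' j ⊗ₜ[K] w' j ∧
      (∀ i, T (v i) (w i)) ∧ (∀ j, T (v' j) (w' j)) ∧
      ∀ i j, T (v i) (v' j) ∧ T (v i) (w' j) ∧ T (w i) (v' j) ∧ T (w i) (w' j)

end

variable (K : Type u) [Field K]

/-- coordinates -/
abbrev C5 : Type u := Fin 5 → K

/-- the space -/
abbrev EE : Type u := C5 K × C5 K

variable {K}

/-- the bilinear relation between the two halves -/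
def Rel (v w : C5 K) : Prop :=
  v 0 * w 1 = v 1 * w 0 ∧ v 0 * w 2 = v 2 * w 0 ∧ v 1 * w 2 = v 2 * w 1 ∧
    v 0 * w 0 = v 0 * w 2 ∧ v 1 * w 1 = v 1 * w 2 ∧ v 3 * w 3 = 0 ∧ (v 2 - v 3) * w 4 = 0

theorem Rel.add_left {v v' w : C5 K} (h : Rel v w) (h' : Rel v' w) : Rel (v + v') w := by
  obtain ⟨h1, h2, h3, h4, h5, h6, h7⟩ := h
  obtain ⟨g1, g2, g3, g4, g5, g6, g7⟩ := h'
  refine ⟨?_, ?_, ?_, ?_, ?_, ?_, ?_⟩ <;> simp only [Pi.add_apply]
  · linear_combination h1 + g1
  · linear_combination h2 + g2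
  · linear_combination h3 + g3
  · linear_combination h4 + g4
  · linear_combination h5 + g5
  · linear_combination h6 + g6
  · linear_combination h7 + g7

theorem Rel.add_right {v w w' : C5 K} (h : Rel v w) (h' : Rel v w') : Rel v (w + w') := by
  obtain ⟨h1, h2, h3, h4, h5, h6, h7⟩ := h
  obtain ⟨g1, g2, g3, g4, g5, g6, g7⟩ := h'
  refine ⟨?_, ?_, ?_, ?_, ?_, ?_, ?_⟩ <;> simp only [Pi.add_apply]
  · linear_combination h1 + g1
  · linear_combination h2 + g2
  · linear_combination h3 + g3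
  · linear_combination h4 + g4
  · linear_combination h5 + g5
  · linear_combination h6 + g6
  · linear_combination h7 + g7

theorem Rel.smul_left {v w : C5 K} (c : K) (h : Rel v w) : Rel (c • v) w := by
  obtain ⟨h1, h2, h3, h4, h5, h6, h7⟩ := h
  refine ⟨?_, ?_, ?_, ?_, ?_, ?_, ?_⟩ <;> simp only [Pi.smul_apply, smul_eq_mul]
  · linear_combination c * h1
  · linear_combination c * h2
  · linear_combination c * h3
  · linear_combination c * h4
  · linear_combination c * h5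
  · linear_combination c * h6
  · linear_combination c * h7

theorem Rel.smul_right {v w : C5 K} (c : K) (h : Rel v w) : Rel v (c • w) := by
  obtain ⟨h1, h2, h3, h4, h5, h6, h7⟩ := h
  refine ⟨?_, ?_, ?_, ?_, ?_, ?_, ?_⟩ <;> simp only [Pi.smul_apply, smul_eq_mul]
  · linear_combination c * h1
  · linear_combination c * h2
  · linear_combination c * h3
  · linear_combination c * h4
  · linear_combination c * h5
  · linear_combination c * h6
  · linear_combination c * h7

theorem Rel.zero_left (w : C5 K) : Rel 0 w := by simp [Rel]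

theorem Rel.zero_right (v : C5 K) : Rel v 0 := by simp [Rel]

/-- the relation -/
def TT (e f : EE K) : Prop := Rel e.1 f.2 ∧ Rel f.1 e.2

theorem isLocality_TT : IsLocality K (TT (K := K)) := by
  refine ⟨fun x y h => ⟨h.2, h.1⟩, fun S => ?_⟩
  refine ⟨{ carrier := polar TT S
            add_mem' := ?_
            zero_mem' := ?_
            smul_mem' := ?_ }, rfl⟩
  · intro a b ha hb y hy
    exact ⟨(ha y hy).1.add_left (hb y hy).1, (ha y hy).2.add_right (hb y hy).2⟩
  · intro y _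
    exact ⟨Rel.zero_left _, Rel.zero_right _⟩
  · intro c a ha y hy
    exact ⟨(ha y hy).1.smul_left c, (ha y hy).2.smul_right c⟩

variable (K)

/-- the first half -/
def VV : Submodule K (EE K) := LinearMap.ker (LinearMap.snd K (C5 K) (C5 K))

/-- the second half -/
def WW : Submodule K (EE K) := LinearMap.ker (LinearMap.fst K (C5 K) (C5 K))

variable {K}

/-- the inclusion -/
def iV : C5 K →ₗ[K] VV K := (LinearMap.inl K (C5 K) (C5 K)).codRestrict (VV K) (fun _ => rfl)

/-- the inclusion -/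
def iW : C5 K →ₗ[K] WW K := (LinearMap.inr K (C5 K) (C5 K)).codRestrict (WW K) (fun _ => rfl)

/-- the coordinate functions -/
def cV (i : Fin 5) : VV K →ₗ[K] K :=
  LinearMap.proj i ∘ₗ LinearMap.fst K (C5 K) (C5 K) ∘ₗ (VV K).subtype

/-- the coordinate functions -/
def cW (i : Fin 5) : WW K →ₗ[K] K :=
  LinearMap.proj i ∘ₗ LinearMap.snd K (C5 K) (C5 K) ∘ₗ (WW K).subtype

theorem TT_iff_VW (v : VV K) (w : WW K) : TT (v : EE K) (w : EE K) ↔
    Rel (v : EE K).1 (w : EE K).2 := by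
  constructor
  · exact fun h => h.1
  · intro h
    refine ⟨h, ?_⟩
    have h1 : (w : EE K).1 = 0 := w.2
    rw [h1]
    exact Rel.zero_left _

theorem TT_symm {e f : EE K} (h : TT e f) : TT f e := ⟨h.2, h.1⟩

theorem TT_VV (v v' : VV K) : TT (v : EE K) (v' : EE K) := by
  have h1 : (v : EE K).2 = 0 := v.2
  have h2 : (v' : EE K).2 = 0 := v'.2
  refine ⟨?_, ?_⟩
  · rw [h2]; exact Rel.zero_right _
  · rw [h1]; exact Rel.zero_right _

theorem TT_WW (w w' : WW K) : TT (w : EE K) (w' : EE K) := by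
  have h1 : (w : EE K).1 = 0 := w.2
  have h2 : (w' : EE K).1 = 0 := w'.2
  refine ⟨?_, ?_⟩
  · rw [h1]; exact Rel.zero_left _
  · rw [h2]; exact Rel.zero_left _

/-- the datum -/
def DD (K : Type u) [Field K] : Datum K where
  E := EE K
  T := TT
  V := VV K
  W := WW K

/-- the points -/
def pp : Fin 4 → C5 K := ![![0, 0, 1, 0, 0], ![1, 0, 1, 0, 0], ![0, 1, 1, 0, 0], ![1, 1, 1, 0, 0]]

/-- the signs -/
def ss : Fin 4 → K := ![1, -1, -1, 1]

/-- the vector `x` -/
def xx : C5 K := ![0, 0, 0, 0, 1]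

/-- the vector `u` -/
def uu : C5 K := ![0, 0, 0, 1, 0]

/-- the tensor `Y` -/
noncomputable def YY : VV K ⊗[K] WW K :=
  ∑ k : Fin 4, iV ((ss k : K) • (pp k : C5 K)) ⊗ₜ[K] iW (pp k : C5 K)

theorem YY_eq : (YY : VV K ⊗[K] WW K) =
    ∑ k : Fin 4, iV ((ss k : K) • (pp k + uu : C5 K)) ⊗ₜ[K] iW (pp k : C5 K) := by
  have h1 : ∀ k : Fin 4,
      (iV ((ss k : K) • (pp k + uu : C5 K)) ⊗ₜ[K] iW (pp k : C5 K) : VV K ⊗[K] WW K) =
      iV ((ss k : K) • (pp k : C5 K)) ⊗ₜ[K] iW (pp k : C5 K) +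
        iV (uu : C5 K) ⊗ₜ[K] ((ss k : K) • iW (pp k : C5 K)) := by
    intro k
    rw [smul_add, map_add, TensorProduct.add_tmul, map_smul iV (ss k) uu,
      TensorProduct.smul_tmul]
  rw [Finset.sum_congr rfl (fun k _ => h1 k), Finset.sum_add_distrib, ← TensorProduct.tmul_sum]
  have h2 : ∑ k : Fin 4, (ss k : K) • iW (pp k : C5 K) = 0 := by
    simp only [← map_smul, ← map_sum]
    have h3 : ∑ k : Fin 4, ((ss k : K) • (pp k : C5 K)) = 0 := by
      funext i
      fin_cases i <;> simp [Fin.sum_univ_succ, ss, pp]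
    rw [h3, map_zero]
  rw [h2, TensorProduct.tmul_zero, add_zero]
  rfl

theorem rel_pp (k : Fin 4) (t : K) : Rel (pp k + t • uu : C5 K) (pp k) := by
  fin_cases k <;> simp [Rel, pp, uu]

theorem qrel1 : QRelT TT (VV K) (WW K) (iV (xx : C5 K) ⊗ₜ[K] iW (uu : C5 K)) YY := by
  refine ⟨1, 4, fun _ => iV xx, fun _ => iW uu, fun k => iV ((ss k : K) • pp k), fun k => iW (pp k),
    by simp, rfl, ?_, ?_, ?_⟩
  · intro i
    rw [TT_iff_VW]
    change Rel (xx : C5 K) (uu : C5 K)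
    simp [Rel, xx]
  · intro k
    rw [TT_iff_VW]
    change Rel ((ss k : K) • (pp k : C5 K)) (pp k : C5 K)
    apply Rel.smul_left
    have := rel_pp k (0 : K)
    rwa [zero_smul, add_zero] at this
  · intro i k
    refine ⟨TT_VV _ _, ?_, ?_, TT_WW _ _⟩
    · rw [TT_iff_VW]
      change Rel (xx : C5 K) (pp k : C5 K)
      simp [Rel, xx]
    · apply TT_symm
      rw [TT_iff_VW]
      change Rel ((ss k : K) • (pp k : C5 K)) (uu : C5 K)
      apply Rel.smul_left
      fin_cases k <;> simp [Rel, pp, uu]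

theorem qrel2 : QRelT TT (VV K) (WW K) (iV (xx : C5 K) ⊗ₜ[K] iW (xx : C5 K)) YY := by
  refine ⟨1, 4, fun _ => iV xx, fun _ => iW xx, fun k => iV ((ss k : K) • (pp k + uu)),
    fun k => iW (pp k), by simp, YY_eq, ?_, ?_, ?_⟩
  · intro i
    rw [TT_iff_VW]
    change Rel (xx : C5 K) (xx : C5 K)
    simp [Rel, xx]
  · intro k
    rw [TT_iff_VW]
    change Rel ((ss k : K) • (pp k + uu : C5 K)) (pp k : C5 K)
    apply Rel.smul_left
    have := rel_pp k (1 : K)
    rwa [one_smul] at this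
  · intro i k
    refine ⟨TT_VV _ _, ?_, ?_, TT_WW _ _⟩
    · rw [TT_iff_VW]
      change Rel (xx : C5 K) (pp k : C5 K)
      simp [Rel, xx]
    · apply TT_symm
      rw [TT_iff_VW]
      change Rel ((ss k : K) • (pp k + uu : C5 K)) (xx : C5 K)
      apply Rel.smul_left
      fin_cases k <;> simp [Rel, pp, uu, xx]

/-- contraction -/
noncomputable def con (φ : VV K →ₗ[K] K) : VV K ⊗[K] WW K →ₗ[K] WW K :=
  TensorProduct.lift (LinearMap.lsmul K (WW K) ∘ₗ φ)

/-- evaluation -/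
noncomputable def ev (φ : VV K →ₗ[K] K) (ψ : WW K →ₗ[K] K) : VV K ⊗[K] WW K →ₗ[K] K :=
  ψ ∘ₗ con φ

theorem con_tmul (φ : VV K →ₗ[K] K) (v : VV K) (w : WW K) : con φ (v ⊗ₜ[K] w) = φ v • w := by
  simp [con]

theorem ev_tmul (φ : VV K →ₗ[K] K) (ψ : WW K →ₗ[K] K) (v : VV K) (w : WW K) :
    ev φ ψ (v ⊗ₜ[K] w) = φ v * ψ w := by
  simp [ev, con_tmul]

/-- the coordinates -/
theorem cV_iV (i : Fin 5) (v : C5 K) : cV i (iV v) = v i := rfl

theorem cW_iW (i : Fin 5) (v : C5 K) : cW i (iW v) = v i := rfl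

theorem rel_key {v w : C5 K} (h : Rel v w) (h3 : v 3 = 0) (h23 : v 2 - v 3 = 0) :
    v 0 * w 1 = 0 := by
  obtain ⟨h1, h2, -, h4, -, -, -⟩ := h
  have hv2 : v 2 = 0 := by rw [h3, sub_zero] at h23; exact h23
  by_cases h0 : v 0 = 0
  · rw [h0, zero_mul]
  · have hw2 : w 2 = 0 := by
      have : v 0 * w 2 = 0 := by rw [h2, hv2, zero_mul]
      exact (mul_eq_zero.1 this).resolve_left h0
    have hw0 : w 0 = 0 := by
      have : v 0 * w 0 = 0 := by rw [h4, hw2, mul_zero]
      exact (mul_eq_zero.1 this).resolve_left h0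
    rw [h1, hw0, mul_zero]

theorem QRelT.mem_left {X Y : VV K ⊗[K] WW K} (h : QRelT TT (VV K) (WW K) X Y) :
    X ∈ LTensorT TT (VV K) (WW K) := by
  obtain ⟨m, n, v, w, v', w', hX, -, hvw, -, -⟩ := h
  rw [hX]
  exact Submodule.sum_mem _ fun i _ => Submodule.subset_span ⟨v i, w i, hvw i, rfl⟩

theorem QRelT.mem_right {X Y : VV K ⊗[K] WW K} (h : QRelT TT (VV K) (WW K) X Y) :
    Y ∈ LTensorT TT (VV K) (WW K) := by
  obtain ⟨m, n, v, w, v', w', -, hY, -, hvw, -⟩ := h
  rw [hY]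
  exact Submodule.sum_mem _ fun i _ => Submodule.subset_span ⟨v' i, w' i, hvw i, rfl⟩

theorem not_qrel3 : ¬ QRelT TT (VV K) (WW K)
    (iV (xx : C5 K) ⊗ₜ[K] iW (uu : C5 K) + iV (xx : C5 K) ⊗ₜ[K] iW (xx : C5 K)) YY := by
  rintro ⟨m, n, v, w, v', w', hX, hY, -, hvw', hall⟩
  -- the contraction of `X` by the last coordinate
  have hc : iW (uu + xx : C5 K) = ∑ i, cV 4 (v i) • w i := by
    have h := congrArg (con (cV 4)) hX
    rw [map_add, con_tmul, con_tmul, map_sum] at h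
    simp only [con_tmul, cV_iV] at h
    have hx : (xx : C5 K) 4 = 1 := rfl
    rw [hx, one_smul, one_smul, ← map_add] at h
    exact h
  -- every `v' j` is independent of `uu + xx`
  have hj : ∀ j, Rel (v' j : EE K).1 (uu + xx : C5 K) := by
    intro j
    have hh : ∀ i, Rel (v' j : EE K).1 (w i : EE K).2 := by
      intro i
      have hT := (hall i j).2.2.1
      exact (TT_iff_VW _ _).1 (TT_symm hT)
    have h2 : (uu + xx : C5 K) = ∑ i, cV 4 (v i) • (w i : EE K).2 := by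
      have h := congrArg (fun z : WW K => (z : EE K).2) hc
      simp only [AddSubmonoidClass.coe_finsetSum, Submodule.coe_smul, Prod.snd_sum,
        Prod.smul_snd] at h
      exact h
    rw [h2]
    have hgen : ∀ s : Finset (Fin m), Rel (v' j : EE K).1 (∑ i ∈ s, cV 4 (v i) • (w i : EE K).2) := by
      intro s
      classical
      induction s using Finset.induction_on with
      | empty => rw [Finset.sum_empty]; exact Rel.zero_right _
      | insert a s ha ih =>
        rw [Finset.sum_insert ha]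
        exact ((hh a).smul_right _).add_right ih
    exact hgen _
  have hzero : ∀ j, cV 0 (v' j) * cW 1 (w' j) = 0 := by
    intro j
    obtain ⟨-, -, -, -, -, h6, h7⟩ := hj j
    have e3 : (uu + xx : C5 K) 3 = 1 := by simp [uu, xx]
    have e4 : (uu + xx : C5 K) 4 = 1 := by simp [uu, xx]
    rw [e3, mul_one] at h6
    rw [e4, mul_one] at h7
    exact rel_key ((TT_iff_VW _ _).1 (hvw' j)) h6 h7
  have h := congrArg (ev (cV 0) (cW 1)) hY
  rw [map_sum] at h
  simp only [ev_tmul, hzero, Finset.sum_const_zero] at h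
  rw [YY, map_sum] at h
  simp only [ev_tmul, cV_iV, cW_iW] at h
  simp [Fin.sum_univ_succ, ss, pp] at h

theorem qrel_iff (X Y : VV K ⊗[K] WW K) :
    QRel (DD K) X Y ↔ QRelT TT (VV K) (WW K) X Y := by
  constructor
  · rintro ⟨m, n, v, w, v', w', ⟨h1, h2⟩, ⟨h3, h4⟩, h5⟩
    exact ⟨m, n, v, w, v', w', h1, h3, h2, h4, h5⟩
  · rintro ⟨m, n, v, w, v', w', h1, h3, h2, h4, h5⟩
    exact ⟨m, n, v, w, v', w', ⟨h1, h2⟩, ⟨h3, h4⟩, h5⟩

end Pool.Agent.X326.Loc
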